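import Pool.Agent.BEW.StmtsD

/-!
# Squad BEW (MP_be01ff_an), row CST: the cone is invariant under the steps
-/

set_option autoImplicit false

namespace Pool.Agent.BEW.H75

open Set Filter Topology MeasureTheory
open scoped InnerProductSpace ENNReal
open Pool.Agent.BE01 Pool.Agent.BEL Pool.Agent.BEG Pool.Agent.BEH Pool.Agent.BER Pool.Agent.BEW

noncomputable section

/-- A positive number with a given positive power. -/
lemma small_pow (m K : ℝ) (hm : 0 < m) (hK : 0 < K) : ∃ δ : ℝ, 0 < δ ∧ δ ^ m = K := by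
  refine ⟨K ^ (1 / m), Real.rpow_pos_of_pos hK _, ?_⟩
  rw [← Real.rpow_mul hK.le, one_div_mul_cancel hm.ne', Real.rpow_one]

/-- The other modes: algebra. -/
lemma alg_F (al γ ε η τ ω sm C g0 x R F F' Z : ℝ) (hε : 0 < ε) (hη : 0 < η) (hτ : 0 ≤ τ)
    (hg0 : 0 < g0) (hR : 0 < R) (hF : F ≤ η ^ 2 * R ^ 2)
    (h1 : F' ≤ F - 2 * (al + 1) * (γ - ε) * τ * F + 2 * ε * τ * R * Real.sqrt F +
      C * (sm * η ^ 2 + ω) * τ * R ^ 2)
    (h2 : R ^ 2 * (1 - 2 * x * τ - 3 / 8 * g0 * τ) ≤ Z)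
    (h3 : 2 * (al + 1) * (γ - ε) * τ ≤ 1)
    (h4 : x + g0 ≤ (al + 1) * γ)
    (h5 : C * sm ≤ g0 / 8) (h6 : C * ω ≤ g0 / 8 * η ^ 2)
    (h7 : 2 * (al + 1) * ε * η ^ 2 + 2 * ε * η ≤ g0 / 4 * η ^ 2) :
    F' ≤ η ^ 2 * Z := by
  have hs : Real.sqrt F ≤ η * R := by
    refine Real.sqrt_le_iff.mpr ⟨by positivity, ?_⟩
    rw [mul_pow]
    exact hF
  have k1 : F * (1 - 2 * (al + 1) * (γ - ε) * τ) ≤
      η ^ 2 * R ^ 2 * (1 - 2 * (al + 1) * (γ - ε) * τ) :=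
    mul_le_mul_of_nonneg_right hF (by linarith)
  have k2 : 2 * ε * τ * R * Real.sqrt F ≤ 2 * ε * τ * R * (η * R) :=
    mul_le_mul_of_nonneg_left hs (by positivity)
  have w1 : 0 ≤ τ * R ^ 2 := by positivity
  have w2 : 0 ≤ η ^ 2 * (τ * R ^ 2) := by positivity
  have k4 := mul_le_mul_of_nonneg_right h4 w2
  have k5 := mul_le_mul_of_nonneg_right h5 w2
  have k6 := mul_le_mul_of_nonneg_right h6 w1
  have k7 := mul_le_mul_of_nonneg_right h7 w1
  have k8 : 0 ≤ g0 * (η ^ 2 * (τ * R ^ 2)) := by positivity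
  have k9 := mul_le_mul_of_nonneg_left h2 (sq_nonneg η)
  nlinarith [k1, k2, k4, k5, k6, k7, k8, k9, h1]

/-- The time derivatives: algebra. -/
lemma alg_S (al γ ε τ ω sm C g0 x R S S' Z : ℝ) (hal : 0 < al) (hε : 0 < ε) (hτ : 0 ≤ τ)
    (hg0 : 0 < g0) (hR : 0 < R) (hS : S ≤ R ^ 2)
    (h1 : S' ≤ S - 2 * (al + 1) * (γ - ε) * τ * S + 4 * (al + 1) * ε * τ * R * Real.sqrt S +
      C * (sm + ω) * τ * R ^ 2)
    (h2 : R ^ 2 * (1 - 2 * x * τ - 3 / 8 * g0 * τ) ≤ Z)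
    (h3 : 2 * (al + 1) * (γ - ε) * τ ≤ 1)
    (h4 : x + g0 ≤ (al + 1) * γ)
    (h5 : C * sm ≤ g0 / 8) (h6 : C * ω ≤ g0 / 8)
    (h7 : 6 * (al + 1) * ε ≤ g0 / 4) :
    S' ≤ Z := by
  have hs : Real.sqrt S ≤ R := by
    refine Real.sqrt_le_iff.mpr ⟨hR.le, hS⟩
  have k1 : S * (1 - 2 * (al + 1) * (γ - ε) * τ) ≤
      R ^ 2 * (1 - 2 * (al + 1) * (γ - ε) * τ) :=
    mul_le_mul_of_nonneg_right hS (by linarith)
  have k2 : 4 * (al + 1) * ε * τ * R * Real.sqrt S ≤ 4 * (al + 1) * ε * τ * R * R :=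
    mul_le_mul_of_nonneg_left hs (by positivity)
  have w1 : 0 ≤ τ * R ^ 2 := by positivity
  have k4 := mul_le_mul_of_nonneg_right h4 w1
  have k5 := mul_le_mul_of_nonneg_right h5 w1
  have k6 := mul_le_mul_of_nonneg_right h6 w1
  have k7 := mul_le_mul_of_nonneg_right h7 w1
  have k8 : 0 ≤ g0 * (τ * R ^ 2) := by positivity
  nlinarith [k1, k2, k4, k5, k6, k7, k8, h1, h2]

/-- CST. -/
theorem cst (hLif : LifStmt) (hBoo : BooStmt) (hLvz : LvzStmt) (hLvo : LvoStmt)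
    (hLvd : LvdStmt) : CstStmt := by
  intro al B m0 g0 hal hB hm0 hg0
  obtain ⟨C1, hC1, hZ⟩ := hLvz al B m0 hal hB hm0
  obtain ⟨C2, hC2, hO⟩ := hLvo al B m0 hal hB hm0
  obtain ⟨C3, hC3, hD⟩ := hLvd al B m0 hal hB hm0
  have hmp : 0 < min al 1 := lt_min hal one_pos
  obtain ⟨C, hCdef⟩ : ∃ C : ℝ, C = C1 + C2 + C3 := ⟨_, rfl⟩
  have hC : 0 < C := by rw [hCdef]; positivity
  have hCC1 : C1 ≤ C := by linarith
  have hCC2 : C2 ≤ C := by linarith
  have hCC3 : C3 ≤ C := by linarith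
  -- the size of the other modes
  obtain ⟨σ, hσ, hσm⟩ := small_pow (min al 1) (g0 / (8 * C)) hmp (by positivity)
  have hCσ : C * σ ^ (min al 1) ≤ g0 / 8 := by
    rw [hσm]
    apply le_of_eq
    field_simp
  obtain ⟨N, hN⟩ := exists_nat_gt ((16 * B / σ) ^ 2)
  have hN0 : 0 < (N : ℝ) := lt_of_le_of_lt (sq_nonneg _) hN
  have hN1 : 1 ≤ N := by
    have : 0 < N := by exact_mod_cast hN0
    omega
  have hsN : 0 < Real.sqrt N := Real.sqrt_pos.mpr hN0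
  have hN2 : B * (8 / Real.sqrt N) ≤ σ / 2 := by
    have h1 : 16 * B / σ ≤ Real.sqrt N := Real.le_sqrt_of_sq_le hN.le
    rw [div_le_iff₀ hσ] at h1
    rw [← mul_div_assoc, div_le_iff₀ hsN]
    linarith
  obtain ⟨η, hη, hη1, hη2, hη3⟩ : ∃ η : ℝ, 0 < η ∧ η ≤ 1 ∧ C * η ≤ g0 / 8 ∧
      B * (4 * η * Real.sqrt N) ≤ σ / 2 := by
    refine ⟨min 1 (min (g0 / (8 * C)) (σ / (8 * B * Real.sqrt N))), ?_, min_le_left _ _, ?_, ?_⟩
    · refine lt_min one_pos (lt_min ?_ ?_) <;> positivity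
    · have h1 : min 1 (min (g0 / (8 * C)) (σ / (8 * B * Real.sqrt N))) ≤ g0 / (8 * C) :=
        (min_le_right _ _).trans (min_le_left _ _)
      have h2 := mul_le_mul_of_nonneg_left h1 hC.le
      have h3 : C * (g0 / (8 * C)) = g0 / 8 := by field_simp
      linarith
    · have h1 : min 1 (min (g0 / (8 * C)) (σ / (8 * B * Real.sqrt N))) ≤
          σ / (8 * B * Real.sqrt N) := (min_le_right _ _).trans (min_le_right _ _)
      have h2 := mul_le_mul_of_nonneg_left h1 (show 0 ≤ 4 * B * Real.sqrt N by positivity)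
      have h3 : 4 * B * Real.sqrt N * (σ / (8 * B * Real.sqrt N)) = σ / 2 := by
        field_simp
        norm_num
      linarith
  obtain ⟨K, hK⟩ : ∃ K : ℝ, K = C + 3 * (al + 1) + 1 := ⟨_, rfl⟩
  have hKp : 0 < K := by rw [hK]; positivity
  obtain ⟨e, he⟩ : ∃ e : ℝ, e = g0 / (8 * K) := ⟨_, rfl⟩
  have hep : 0 < e := by rw [he]; positivity
  have heK : e * K = g0 / 8 := by rw [he]; field_simp
  have heK' : e * C + e * (3 * (al + 1)) + e = g0 / 8 := by rw [← heK, hK]; ring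
  have q1 : 0 < e * C := mul_pos hep hC
  have q2 : 0 < e * (3 * (al + 1)) := by positivity
  have hε : 0 < e * η := mul_pos hep hη
  have hεe : e * η ≤ e := by
    have := mul_le_mul_of_nonneg_left hη1 hep.le
    linarith
  have hε1 : C * (e * η) ≤ g0 / 8 := by
    have := mul_le_mul_of_nonneg_left hεe hC.le
    linarith
  have hε2 : 6 * (al + 1) * (e * η) ≤ g0 / 4 := by
    have := mul_le_mul_of_nonneg_left hεe (show 0 ≤ 6 * (al + 1) by positivity)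
    linarith
  have hε3 : 2 * (al + 1) * (e * η) * η ^ 2 + 2 * (e * η) * η ≤ g0 / 4 * η ^ 2 := by
    have h1 := mul_le_mul_of_nonneg_left hεe (show 0 ≤ 2 * (al + 1) by positivity)
    have h2 : 2 * (al + 1) * (e * η) + 2 * e ≤ g0 / 4 := by linarith
    have h3 := mul_le_mul_of_nonneg_right h2 (sq_nonneg η)
    have h4 : 2 * (e * η) * η = 2 * e * η ^ 2 := by ring
    rw [h4]
    linarith
  refine ⟨e * η, η, hε, hη, hη1, ?_⟩
  intro X _ μ b om γ T hOns hFrq hT hAvg hx1 hx2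
  have hT0 : 0 < T := lt_of_lt_of_le one_pos hT
  obtain ⟨Rb, hRb, hBoo'⟩ := hBoo al B m0 η T hal hB hm0 hη hη1 hT0
  obtain ⟨ε, hεdef⟩ : ∃ ε : ℝ, ε = e * η := ⟨_, rfl⟩
  rw [← hεdef] at hε hε1 hε2 hε3 hAvg
  obtain ⟨x, hx⟩ : ∃ x : ℝ, x = (∫ x, |b 0 x| ^ (al + 2) ∂μ) * mc (al + 2) := ⟨_, rfl⟩
  rw [← hx] at hx1 hx2 ⊢
  have hxp : 0 < x := lt_of_lt_of_le hg0 hx1
  obtain ⟨δ1, hδ1, hδ1m⟩ := small_pow (min al 1) (g0 / 8 * η ^ 2 / C) hmp (by positivity)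
  obtain ⟨δ, hδ, hδa, hδb, hδc, hδd⟩ : ∃ δ : ℝ, 0 < δ ∧ δ ≤ 1 ∧ δ ≤ δ1 ∧ 3 * x * δ ≤ 1 / 2 ∧
      2 * (al + 1) * |γ - ε| * δ ≤ 1 := by
    have hy : 0 ≤ 2 * (al + 1) * |γ - ε| := by positivity
    have hy1 : 0 < 2 * (al + 1) * |γ - ε| + 1 := by linarith
    refine ⟨min (min 1 δ1) (min (1 / (6 * x)) (1 / (2 * (al + 1) * |γ - ε| + 1))),
      lt_min (lt_min one_pos hδ1) (lt_min (by positivity) (by positivity)),
      (min_le_left _ _).trans (min_le_left _ _), (min_le_left _ _).trans (min_le_right _ _),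
      ?_, ?_⟩
    · have h1 : min (min 1 δ1) (min (1 / (6 * x)) (1 / (2 * (al + 1) * |γ - ε| + 1))) ≤
          1 / (6 * x) := (min_le_right _ _).trans (min_le_left _ _)
      have h2 := mul_le_mul_of_nonneg_left h1 (show 0 ≤ 3 * x by positivity)
      have h3 : 3 * x * (1 / (6 * x)) = 1 / 2 := by
        field_simp
        norm_num
      linarith
    · have h1 : min (min 1 δ1) (min (1 / (6 * x)) (1 / (2 * (al + 1) * |γ - ε| + 1))) ≤
          1 / (2 * (al + 1) * |γ - ε| + 1) := (min_le_right _ _).trans (min_le_right _ _)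
      have h2 := mul_le_mul_of_nonneg_left h1 hy
      have h3 : 2 * (al + 1) * |γ - ε| * (1 / (2 * (al + 1) * |γ - ε| + 1)) ≤ 1 := by
        rw [mul_one_div, div_le_one hy1]
        linarith
      linarith
  obtain ⟨δ2, hδ2, hδ2m⟩ := small_pow al (δ / T) hal (by positivity)
  refine ⟨min Rb δ2, lt_min hRb hδ2, ?_⟩
  intro M p v t0 R hM hGal hR hRR hR2 hF2 hS2
  have hW := hBoo' X μ b om M p v t0 R hOns hFrq hM hGal hR (le_trans hRR (min_le_left _ _))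
    hR2 hF2 hS2
  have hRal : R ^ al ≤ δ / T := by
    rw [← hδ2m]
    exact Real.rpow_le_rpow hR.le (le_trans hRR (min_le_right _ _)) hal.le
  have hRalp : 0 < R ^ al := Real.rpow_pos_of_pos hR _
  have hR1' : R ^ (al + 1) = R ^ al * R := by
    rw [Real.rpow_add hR, Real.rpow_one]
  have hR2' : R ^ (al + 2) = R ^ al * R ^ 2 := by
    rw [Real.rpow_add hR, Real.rpow_two]
  obtain ⟨τ, hτ⟩ : ∃ τ : ℝ, τ = T * R ^ al := ⟨_, rfl⟩
  have hτ0 : 0 < τ := by rw [hτ]; positivity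
  have hτδ : τ ≤ δ := by
    have h1 := mul_le_mul_of_nonneg_left hRal hT0.le
    have h2 : T * (δ / T) = δ := by field_simp
    rw [hτ]
    linarith
  have hτ1 : T * R ^ al ≤ 1 := by rw [← hτ]; linarith
  have hω : C * τ ^ (min al 1) ≤ g0 / 8 * η ^ 2 := by
    have h1 : τ ^ (min al 1) ≤ δ1 ^ (min al 1) :=
      Real.rpow_le_rpow hτ0.le (hτδ.trans hδb) hmp.le
    rw [hδ1m] at h1
    have h2 := mul_le_mul_of_nonneg_left h1 hC.le
    have h3 : C * (g0 / 8 * η ^ 2 / C) = g0 / 8 * η ^ 2 := by field_simp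
    linarith
  have hη21 : η ^ 2 ≤ 1 := by
    have := pow_le_one₀ (n := 2) hη.le hη1
    exact this
  have hω1 : C * τ ^ (min al 1) ≤ g0 / 8 := by
    have h1 := mul_le_mul_of_nonneg_left hη21 (show 0 ≤ g0 / 8 by positivity)
    linarith
  have hτm : 0 ≤ τ ^ (min al 1) := Real.rpow_nonneg hτ0.le _
  have hσm0 : 0 ≤ σ ^ (min al 1) := Real.rpow_nonneg hσ.le _
  -- the other modes are pointwise small
  have hsig : ∀ s ∈ Icc 0 T, ∀ y, |vel b (Finset.Ico 1 M) v (t0 + s) y| ≤ σ * R := by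
    intro s hs y
    have e1 : ∑ k ∈ Finset.Ico 1 M, v k (t0 + s) ^ 2 ≤ (4 * η * R) ^ 2 := by
      refine le_trans (Finset.sum_le_sum fun k _ => ?_) (hW.w1 s hs)
      have := sq_nonneg (p k (t0 + s))
      linarith
    have e2 : ∑ k ∈ Finset.Ico 1 M, (om k * v k (t0 + s)) ^ 2 ≤ (4 * R) ^ 2 := by
      refine le_trans (Finset.sum_le_sum fun k _ => ?_) (hW.w2 s hs)
      have := sq_nonneg (dd v k (t0 + s))
      linarith
    have h1 := hLif X b om B M N (fun k => v k (t0 + s)) (4 * η * R) (4 * R) y hOns.bdd hFrq.lo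
      hN1 (by positivity) (by positivity) e1 e2
    have h2 : B * (Real.sqrt N * (4 * η * R) + 2 / Real.sqrt N * (4 * R)) =
        (B * (4 * η * Real.sqrt N) + B * (8 / Real.sqrt N)) * R := by
      field_simp
      ring
    have h3 : (B * (4 * η * Real.sqrt N) + B * (8 / Real.sqrt N)) * R ≤ σ * R := by
      apply mul_le_mul_of_nonneg_right _ hR.le
      linarith
    rw [h2] at h1
    exact le_trans h1 h3
  have hz := hZ X μ b om M p v γ ε η T t0 R hOns hFrq hε hη hη1 hT hAvg hW hτ1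
  have ho := hO X μ b om M p v γ ε η T t0 R σ hOns hFrq hε hη hη1 hT hAvg hW hτ1 hσ.le hsig
  have hd := hD X μ b om M p v γ ε η T t0 R σ hOns hFrq hε hη hη1 hT hAvg hW hτ1 hσ.le hsig
  -- the first mode
  have hw : 0 ≤ τ * R ^ 2 := by positivity
  have hz1 : |R2 p v (t0 + T) - R ^ 2 + 2 * x * (τ * R ^ 2)| ≤ 3 / 8 * g0 * (τ * R ^ 2) := by
    have e1 : 2 * (∫ x, |b 0 x| ^ (al + 2) ∂μ) * mc (al + 2) * T * R ^ (al + 2) =
        2 * x * (τ * R ^ 2) := by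
      rw [hx, hτ, hR2']
      ring
    have e2 : C1 * (ε + η + (T * R ^ al) ^ (min al 1)) * T * R ^ (al + 2) =
        C1 * (ε + η + τ ^ (min al 1)) * (τ * R ^ 2) := by
      rw [hτ, hR2']
      ring
    rw [e1, e2] at hz
    refine le_trans hz ?_
    apply mul_le_mul_of_nonneg_right _ hw
    have h1 : C1 * (ε + η + τ ^ (min al 1)) ≤ C * (ε + η + τ ^ (min al 1)) :=
      mul_le_mul_of_nonneg_right hCC1 (by positivity)
    linarith
  obtain ⟨hz2, hz3⟩ := abs_le.mp hz1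
  have hz4 : R ^ 2 * (1 - 2 * x * τ - 3 / 8 * g0 * τ) ≤ R2 p v (t0 + T) := by
    nlinarith [hz2]
  have hg : g0 * (τ * R ^ 2) ≤ x * (τ * R ^ 2) := mul_le_mul_of_nonneg_right hx1 hw
  have hxw : 0 ≤ x * (τ * R ^ 2) := mul_nonneg hxp.le hw
  have hg1 : 0 ≤ g0 * (τ * R ^ 2) := mul_nonneg hg0.le hw
  have h3 : 2 * (al + 1) * (γ - ε) * τ ≤ 1 := by
    have r1 : 2 * (al + 1) * (γ - ε) ≤ 2 * (al + 1) * |γ - ε| :=
      mul_le_mul_of_nonneg_left (le_abs_self _) (by positivity)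
    have r2 := mul_le_mul_of_nonneg_right r1 hτ0.le
    have r3 := mul_le_mul_of_nonneg_left hτδ (show 0 ≤ 2 * (al + 1) * |γ - ε| by positivity)
    linarith
  refine ⟨hW, ?_, ?_, ?_, ?_, ?_⟩
  · have r1 : 3 * (x * T) * R ^ al = 3 * x * τ := by rw [hτ]; ring
    have r2 := mul_le_mul_of_nonneg_left hτδ (show 0 ≤ 3 * x by positivity)
    rw [r1]
    linarith
  · refine alg_F al γ ε η τ (τ ^ (min al 1)) (σ ^ (min al 1)) C g0 x R (F2 M p v t0) _ _ hε hη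
      hτ0.le hg0 hR hF2 ?_ hz4 h3 hx2 hCσ hω hε3
    have e1 : F2 M p v t0 - 2 * (al + 1) * (γ - ε) * T * R ^ al * F2 M p v t0 +
        2 * ε * T * R ^ (al + 1) * Real.sqrt (F2 M p v t0) +
        C2 * (σ ^ (min al 1) * η ^ 2 + (T * R ^ al) ^ (min al 1)) * T * R ^ (al + 2) =
        F2 M p v t0 - 2 * (al + 1) * (γ - ε) * τ * F2 M p v t0 +
        2 * ε * τ * R * Real.sqrt (F2 M p v t0) +
        C2 * (σ ^ (min al 1) * η ^ 2 + τ ^ (min al 1)) * τ * R ^ 2 := by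
      rw [hτ, hR1', hR2']
      ring
    rw [e1] at ho
    have h1 : C2 * ((σ ^ (min al 1) * η ^ 2 + τ ^ (min al 1)) * (τ * R ^ 2)) ≤
        C * ((σ ^ (min al 1) * η ^ 2 + τ ^ (min al 1)) * (τ * R ^ 2)) :=
      mul_le_mul_of_nonneg_right hCC2 (by positivity)
    linarith
  · refine alg_S al γ ε τ (τ ^ (min al 1)) (σ ^ (min al 1)) C g0 x R (S2 om M v t0) _ _ hal hε
      hτ0.le hg0 hR hS2 ?_ hz4 h3 hx2 hCσ hω1 hε2
    have e1 : S2 om M v t0 - 2 * (al + 1) * (γ - ε) * T * R ^ al * S2 om M v t0 +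
        4 * (al + 1) * ε * T * R ^ (al + 1) * Real.sqrt (S2 om M v t0) +
        C3 * (σ ^ (min al 1) + (T * R ^ al) ^ (min al 1)) * T * R ^ (al + 2) =
        S2 om M v t0 - 2 * (al + 1) * (γ - ε) * τ * S2 om M v t0 +
        4 * (al + 1) * ε * τ * R * Real.sqrt (S2 om M v t0) +
        C3 * (σ ^ (min al 1) + τ ^ (min al 1)) * τ * R ^ 2 := by
      rw [hτ, hR1', hR2']
      ring
    rw [e1] at hd
    have h1 : C3 * ((σ ^ (min al 1) + τ ^ (min al 1)) * (τ * R ^ 2)) ≤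
        C * ((σ ^ (min al 1) + τ ^ (min al 1)) * (τ * R ^ 2)) :=
      mul_le_mul_of_nonneg_right hCC3 (by positivity)
    linarith
  · have r1 : 3 * (x * T) * R ^ al = 3 * x * τ := by rw [hτ]; ring
    rw [r1]
    nlinarith [hz2, hg, hxw, hg1]
  · have r1 : x * T * R ^ al = x * τ := by rw [hτ]; ring
    rw [r1]
    nlinarith [hz3, hg, hxw, hg1]

end

end Pool.Agent.BEW.H75
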